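import Pool.Agent.Y655.RZ.Par2

/-!
# Project RZ (helper667), part PAR: the group of the classes
-/

set_option autoImplicit false

namespace Pool.Agent.Y655.RZ

open Finset Pool.Agent.W262.RK Pool.Agent.W307.RT Pool.Agent.W307.RS Pool.Agent.W307.SE
  Pool.Agent.W307.FK Pool.Agent.Y667.RP Pool.Agent.Y667.RZ

/-- all the classes -/
def VA (M : ℕ) : Set (ℤ × ℤ) :=
  {d | Squarefree d.1 ∧ Squarefree d.2 ∧ 0 < d.1 ∧ d.1 % 8 = 1 ∧
    (∀ q : ℕ, q.Prime → (q : ℤ) ∣ d.1 → q ∣ M) ∧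
    (∀ q : ℕ, q.Prime → (q : ℤ) ∣ d.2 → q ∣ 2 * M)}

/-- the local components -/
def Ph (N : Finset ℕ) (d : ℤ × ℤ) : N → XX :=
  fun p => toX (dv p d.1) (dv p d.2) (sgn p d.1) (sgn p d.2)

lemma VA_one (M : ℕ) : ((1, 1) : ℤ × ℤ) ∈ VA M := by
  refine ⟨squarefree_one, squarefree_one, one_pos, by norm_num, ?_, ?_⟩
  · intro q hq h
    exact absurd (Int.natCast_dvd_natCast.1 (by simpa using h)) (fun h' : q ∣ 1 =>
      hq.one_lt.ne' (Nat.dvd_one.1 h'))
  · intro q hq h
    exact absurd (Int.natCast_dvd_natCast.1 (by simpa using h)) (fun h' : q ∣ 1 =>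
      hq.one_lt.ne' (Nat.dvd_one.1 h'))

lemma VA_mul {M : ℕ} {d d' : ℤ × ℤ} (hd : d ∈ VA M) (hd' : d' ∈ VA M) : sp2 d d' ∈ VA M := by
  obtain ⟨h1, h2, h3, h4, h5, h6⟩ := hd
  obtain ⟨k1, k2, k3, k4, k5, k6⟩ := hd'
  refine ⟨sp_sqf h1 k1, sp_sqf h2 k2, sp_pos h1 h3 k3, sp_mod h1 h4 k4, ?_, ?_⟩
  · intro q hq h
    rcases sp_dvd h1 hq h with h | h
    · exact h5 q hq h
    · exact k5 q hq h
  · intro q hq h
    rcases sp_dvd h2 hq h with h | h
    · exact h6 q hq h
    · exact k6 q hq h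

lemma Ph_one {N : Finset ℕ} (hN : ∀ p ∈ N, p.Prime) : Ph N (1, 1) = 0 := by
  funext p
  have hp := hN p p.2
  have h1 : dv p 1 = false := by
    unfold dv
    rw [decide_eq_false_iff_not]
    intro h
    have h' : (p : ℕ) ∣ 1 := Int.natCast_dvd_natCast.1 (by simpa using h)
    exact hp.one_lt.ne' (Nat.dvd_one.1 h')
  have h2 : sgn p 1 = false := by
    unfold sgn sg0
    simp
  show toX (dv p 1) (dv p 1) (sgn p 1) (sgn p 1) = 0
  rw [h1, h2]
  rfl

lemma Ph_mul {N : Finset ℕ} (hN : ∀ p ∈ N, p.Prime) {M : ℕ} {d d' : ℤ × ℤ} (hd : d ∈ VA M)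
    (hd' : d' ∈ VA M) : Ph N (sp2 d d') = Ph N d + Ph N d' := by
  funext p
  have hp := hN p p.2
  obtain ⟨e1, e2⟩ := sp_dv hd.1 hd'.1 p hp
  obtain ⟨e3, e4⟩ := sp_dv hd.2.1 hd'.2.1 p hp
  show toX (dv p (sp d.1 d'.1)) (dv p (sp d.2 d'.2)) (sgn p (sp d.1 d'.1))
    (sgn p (sp d.2 d'.2)) = toX _ _ _ _ + toX _ _ _ _
  rw [e1, e2, e3, e4]
  unfold toX
  simp only [b2z_xor, Prod.mk_add_mk]

/-- the image -/
def AM (M : ℕ) : Submodule (ZMod 2) (M.primeFactors → XX) where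
  carrier := Ph M.primeFactors '' VA M
  zero_mem' := ⟨(1, 1), VA_one M, Ph_one fun p hp => Nat.prime_of_mem_primeFactors hp⟩
  add_mem' := by
    rintro _ _ ⟨d, hd, rfl⟩ ⟨d', hd', rfl⟩
    exact ⟨sp2 d d', VA_mul hd hd', Ph_mul (fun p hp => Nat.prime_of_mem_primeFactors hp) hd hd'⟩
  smul_mem' := by
    rintro t _ ⟨d, hd, rfl⟩
    have ht : t = 0 ∨ t = 1 := by revert t; decide
    rcases ht with rfl | rfl
    · rw [zero_smul]
      exact ⟨(1, 1), VA_one M, Ph_one fun p hp => Nat.prime_of_mem_primeFactors hp⟩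
    · rw [one_smul]; exact ⟨d, hd, rfl⟩

/-- the hypothesis about the nontrivial units -/
def HS (M : ℕ) : Prop := ∀ σ : ℤ, σ = -1 ∨ σ = 2 ∨ σ = -2 →
  ∃ p : ℕ, p.Prime ∧ p ∣ M ∧ jacobiSym σ p = -1

lemma Ph_ker {M : ℕ} (hM : Odd M) (hS : HS M) {d : ℤ × ℤ} (hd : d ∈ VA M)
    (h0 : Ph M.primeFactors d = 0) : d = (1, 1) := by
  obtain ⟨h1, h2, h3, h4, h5, h6⟩ := hd
  have hM0 : M ≠ 0 := hM.pos.ne'
  have hc : ∀ p ∈ M.primeFactors, dv p d.1 = false ∧ dv p d.2 = false ∧ sgn p d.1 = false ∧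
      sgn p d.2 = false := by
    intro p hp
    have h := congrFun h0 ⟨p, hp⟩
    have h' : toX (dv p d.1) (dv p d.2) (sgn p d.1) (sgn p d.2) = toX false false false false := h
    unfold toX at h'
    simp only [Prod.mk.injEq] at h'
    exact ⟨b2z_inj _ _ h'.1, b2z_inj _ _ h'.2.1, b2z_inj _ _ h'.2.2.1, b2z_inj _ _ h'.2.2.2⟩
  have e1 : d.1 = 1 := by
    have : d.1.natAbs = 1 := by
      rw [Nat.eq_one_iff_not_exists_prime_dvd]
      intro q hq hqd
      have hqd' : (q : ℤ) ∣ d.1 := Int.natCast_dvd.mpr hqd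
      have hqM := h5 q hq hqd'
      have := (hc q (Nat.mem_primeFactors.2 ⟨hq, hqM, hM0⟩)).1
      unfold dv at this
      rw [decide_eq_false_iff_not] at this
      exact this hqd'
    omega
  have e2 : d.2.natAbs ∣ 2 := by
    apply natAbs_dvd h2
    intro q hq hqd
    rcases (hq.dvd_mul).1 (h6 q hq hqd) with h | h
    · exact h
    · have := (hc q (Nat.mem_primeFactors.2 ⟨hq, h, hM0⟩)).2.1
      unfold dv at this
      rw [decide_eq_false_iff_not] at this
      exact absurd hqd this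
  have e3 : d.2 = 1 ∨ d.2 = -1 ∨ d.2 = 2 ∨ d.2 = -2 := by
    rcases (Nat.dvd_prime Nat.prime_two).1 e2 with h | h <;> omega
  have e4 : d.2 = 1 := by
    rcases e3 with h | h
    · exact h
    · exfalso
      obtain ⟨p, hp, hpM, hJ⟩ := hS d.2 h
      have h7 := (hc p (Nat.mem_primeFactors.2 ⟨hp, hpM, hM0⟩))
      have h8 := h7.2.1
      unfold dv at h8
      rw [decide_eq_false_iff_not] at h8
      have h9 := h7.2.2.2
      rw [sgn_ndvd hp h8] at h9
      unfold sg0 at h9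
      rw [decide_eq_false_iff_not] at h9
      exact h9 hJ
  exact Prod.ext e1 e4

lemma Ph_inj {M : ℕ} (hM : Odd M) (hS : HS M) : Set.InjOn (Ph M.primeFactors) (VA M) := by
  intro d hd d' hd' h
  have h1 : Ph M.primeFactors (sp2 d d') = 0 := by
    rw [Ph_mul (fun p hp => Nat.prime_of_mem_primeFactors hp) hd hd', h]
    funext p
    have : ∀ x : XX, x + x = 0 := by decide
    exact this _
  have h2 := Ph_ker hM hS (VA_mul hd hd') h1
  unfold sp2 at h2
  rw [Prod.mk.injEq] at h2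
  exact Prod.ext (eq_of_sp_one hd.1 h2.1) (eq_of_sp_one hd.2.1 h2.2)

lemma VA_fin {M : ℕ} (hM : Odd M) (hS : HS M) : (VA M).Finite :=
  Set.Finite.of_finite_image (Set.toFinite (Ph M.primeFactors '' VA M)) (Ph_inj hM hS)

lemma card_AM {M : ℕ} (hM : Odd M) (hS : HS M) : Nat.card (AM M) = (VA M).ncard := by
  rw [← (Ph_inj hM hS).ncard_image, ← Nat.card_coe_set_eq]
  rfl

lemma card_inf {M : ℕ} (hM : Odd M) (hS : HS M) (L : ℕ → Bool → Bool → Bool → Bool → Prop)
    (hL : ∀ p, XC (L p)) :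
    Nat.card (AM M ⊓ WL M.primeFactors L hL : Submodule (ZMod 2) (M.primeFactors → XX)) =
      (VG M L).ncard := by
  have hsub : VG M L ⊆ VA M := by
    rintro d ⟨h1, h2, h3, h4, h5, h6, h7⟩
    exact ⟨h1, h2, h3, h4, h5, h6⟩
  have himg : ((AM M ⊓ WL M.primeFactors L hL : Submodule (ZMod 2) (M.primeFactors → XX)) :
      Set (M.primeFactors → XX)) = Ph M.primeFactors '' VG M L := by
    ext x
    constructor
    · rintro ⟨⟨d, hd, rfl⟩, hx⟩
      refine ⟨d, ⟨hd.1, hd.2.1, hd.2.2.1, hd.2.2.2.1, hd.2.2.2.2.1, hd.2.2.2.2.2, ?_⟩, rfl⟩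
      intro p hp
      have h1 := hx ⟨p, hp⟩
      exact (LX_toX (L p) _ _ _ _).1 h1
    · rintro ⟨d, hd, rfl⟩
      refine ⟨⟨d, hsub hd, rfl⟩, ?_⟩
      intro p
      exact (LX_toX (L p) _ _ _ _).2 (hd.2.2.2.2.2.2 p p.2)
  rw [← ((Ph_inj hM hS).mono hsub).ncard_image, ← himg, ← Nat.card_coe_set_eq]
  rfl

lemma sp_mod8 {a b : ℤ} (ha : Squarefree a) (ho : a % 2 = 1) (h : a % 8 = b % 8) :
    sp a b % 8 = 1 := by
  obtain ⟨g, a', b', hg, e1, e2, h3, h4⟩ := sp_dec a b ha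
  rw [h4]
  have h5 : (a * b) % 8 = 1 := by
    rw [Int.mul_emod, ← h]
    have : a % 8 = 1 ∨ a % 8 = 3 ∨ a % 8 = 5 ∨ a % 8 = 7 := by omega
    rcases this with h | h | h | h <;> rw [h] <;> norm_num
  have h6 : a * b = g ^ 2 * (a' * b') := by rw [e1, e2]; ring
  rw [h6, Int.mul_emod] at h5
  have h7 : g ^ 2 % 8 = 0 ∨ g ^ 2 % 8 = 1 ∨ g ^ 2 % 8 = 4 := by
    rw [pow_two, Int.mul_emod]
    have : g % 8 = 0 ∨ g % 8 = 1 ∨ g % 8 = 2 ∨ g % 8 = 3 ∨ g % 8 = 4 ∨ g % 8 = 5 ∨ g % 8 = 6 ∨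
      g % 8 = 7 := by omega
    rcases this with h | h | h | h | h | h | h | h <;> rw [h] <;> norm_num
  rcases h7 with h | h | h
  · rw [h] at h5; omega
  · rw [h] at h5; omega
  · rw [h] at h5; omega

lemma card_div {M : ℕ} (hM : Squarefree M) : M.divisors.card = 2 ^ M.primeFactors.card := by
  rw [Nat.card_divisors hM.ne_zero]
  rw [prod_congr rfl (g := fun _ => 2), prod_const]
  intro p hp
  have h1 := hM.natFactorization_le_one p
  have h2 := (Nat.prime_of_mem_primeFactors hp).factorization_pos_of_dvd hM.ne_zero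
    (Nat.dvd_of_mem_primeFactors hp)
  omega

/-- the divisors in one class modulo 8 -/
lemma card_F1 {M : ℕ} (hM : Squarefree M) (hMo : Odd M) :
    M.divisors.card ≤ 4 * (M.divisors.filter (fun d => d % 8 = 1)).card := by
  classical
  have hodd : ∀ d ∈ M.divisors, d % 2 = 1 := by
    intro d hd
    have h1 := Nat.dvd_of_mem_divisors hd
    exact Nat.odd_iff.1 (Odd.of_dvd_nat hMo h1)
  have hfib : ∀ r : ℕ, (M.divisors.filter (fun d => d % 8 = r)).card ≤
      (M.divisors.filter (fun d => d % 8 = 1)).card := by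
    intro r
    rcases (M.divisors.filter (fun d => d % 8 = r)).eq_empty_or_nonempty with h | ⟨d0, hd0⟩
    · rw [h]; simp
    · rw [mem_filter] at hd0
      have hs0 : Squarefree (d0 : ℤ) := Int.squarefree_natCast.2
        (hM.squarefree_of_dvd (Nat.dvd_of_mem_divisors hd0.1))
      have hp0 : (0 : ℤ) < d0 := by
        have := Nat.pos_of_mem_divisors hd0.1
        exact_mod_cast this
      apply card_le_card_of_injOn (fun d : ℕ => (sp (d0 : ℤ) (d : ℤ)).natAbs)
      · intro d hd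
        rw [mem_coe, mem_filter] at hd
        rw [mem_coe, mem_filter, Nat.mem_divisors]
        have hs : Squarefree (d : ℤ) := Int.squarefree_natCast.2
          (hM.squarefree_of_dvd (Nat.dvd_of_mem_divisors hd.1))
        have hp : (0 : ℤ) < d := by
          have := Nat.pos_of_mem_divisors hd.1
          exact_mod_cast this
        refine ⟨⟨natAbs_dvd (sp_sqf hs0 hs) ?_, hM.ne_zero⟩, ?_⟩
        · intro q hq hqd
          rcases sp_dvd hs0 hq hqd with h | h
          · exact (Int.natCast_dvd_natCast.1 h).trans (Nat.dvd_of_mem_divisors hd0.1)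
          · exact (Int.natCast_dvd_natCast.1 h).trans (Nat.dvd_of_mem_divisors hd.1)
        · have h1 : sp (d0 : ℤ) d % 8 = 1 := by
            apply sp_mod8 hs0
            · have := hodd d0 hd0.1
              omega
            · have := hd0.2
              have := hd.2
              omega
          have h2 := sp_pos hs0 hp0 hp
          show (sp (d0 : ℤ) (d : ℤ)).natAbs % 8 = 1
          omega
      · intro d hd d' hd' h
        rw [mem_coe, mem_filter] at hd hd'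
        have hs : Squarefree (d : ℤ) := Int.squarefree_natCast.2
          (hM.squarefree_of_dvd (Nat.dvd_of_mem_divisors hd.1))
        have hp : (0 : ℤ) < d := by
          have := Nat.pos_of_mem_divisors hd.1
          exact_mod_cast this
        have hs' : Squarefree (d' : ℤ) := Int.squarefree_natCast.2
          (hM.squarefree_of_dvd (Nat.dvd_of_mem_divisors hd'.1))
        have hp' : (0 : ℤ) < d' := by
          have := Nat.pos_of_mem_divisors hd'.1
          exact_mod_cast this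
        have h1 := sp_pos hs0 hp0 hp
        have h2 := sp_pos hs0 hp0 hp'
        have h3 : sp (d0 : ℤ) d = sp d0 d' := by
          simp only at h
          omega
        have h4 := sp_inj hs0 hs hs' h3
        exact_mod_cast h4
  have hmaps : (M.divisors : Set ℕ).MapsTo (fun d => d % 8) (({1, 3, 5, 7} : Finset ℕ) : Set ℕ) := by
    intro d hd
    have h1 := hodd d hd
    have h2 : d % 8 = 1 ∨ d % 8 = 3 ∨ d % 8 = 5 ∨ d % 8 = 7 := by omega
    simp only [coe_insert, coe_singleton, Set.mem_insert_iff, Set.mem_singleton_iff]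
    exact h2
  rw [card_eq_sum_card_fiberwise hmaps]
  calc _ ≤ ∑ _r ∈ ({1, 3, 5, 7} : Finset ℕ), (M.divisors.filter (fun d => d % 8 = 1)).card :=
        sum_le_sum fun r _ => hfib r
    _ = _ := by rw [sum_const]; simp

/-- the lower bound for the number of the classes -/
lemma card_VA {M : ℕ} (hM : Squarefree M) (hMo : Odd M) (hfin : (VA M).Finite) :
    4 ^ M.primeFactors.card ≤ (VA M).ncard := by
  classical
  set F1 := M.divisors.filter (fun d => d % 8 = 1) with hF1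
  set S4 : Finset ℤ := {1, -1, 2, -2} with hS4
  have hodd : ∀ d ∈ M.divisors, d % 2 = 1 := by
    intro d hd
    have h1 := Nat.dvd_of_mem_divisors hd
    exact Nat.odd_iff.1 (Odd.of_dvd_nat hMo h1)
  set f : ℕ × (ℤ × ℕ) → ℤ × ℤ := fun t => ((t.1 : ℤ), t.2.1 * (t.2.2 : ℤ)) with hf
  have hS4m : ∀ σ ∈ S4, σ = 1 ∨ σ = -1 ∨ σ = 2 ∨ σ = -2 := by
    intro σ hσ
    simpa [hS4] using hσ
  have hinj : Set.InjOn f (F1 ×ˢ (S4 ×ˢ M.divisors) : Finset (ℕ × (ℤ × ℕ))) := by
    rintro ⟨t, σ, g⟩ ht ⟨t', σ', g'⟩ ht' h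
    rw [mem_coe, mem_product, mem_product] at ht ht'
    obtain ⟨h1, h2, h3⟩ := ht
    obtain ⟨k1, k2, k3⟩ := ht'
    simp only at h1 h2 h3 k1 k2 k3
    simp only [hf, Prod.mk.injEq] at h
    obtain ⟨e1, e2⟩ := h
    have o1 := hodd g h3
    have o2 := hodd g' k3
    have e3 : t = t' := by exact_mod_cast e1
    have e4 : σ = σ' ∧ g = g' := by
      rcases hS4m σ h2 with rfl | rfl | rfl | rfl <;>
        rcases hS4m σ' k2 with rfl | rfl | rfl | rfl <;>
        first
        | (refine ⟨rfl, ?_⟩; omega)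
        | (exfalso; omega)
    rw [e3, e4.1, e4.2]
  have hsub : ((F1 ×ˢ (S4 ×ˢ M.divisors)).image f : Set (ℤ × ℤ)) ⊆ VA M := by
    rintro _ hx
    rw [mem_coe, mem_image] at hx
    obtain ⟨⟨t, σ, g⟩, ht, rfl⟩ := hx
    rw [mem_product, mem_product, hF1, mem_filter] at ht
    obtain ⟨⟨h1, h1'⟩, h2, h3⟩ := ht
    simp only at h1 h1' h2 h3
    have o1 := hodd g h3
    have hg : Squarefree g := hM.squarefree_of_dvd (Nat.dvd_of_mem_divisors h3)
    have hσ := hS4m σ h2
    refine ⟨Int.squarefree_natCast.2 (hM.squarefree_of_dvd (Nat.dvd_of_mem_divisors h1)), ?_,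
      ?_, ?_, ?_, ?_⟩
    · show Squarefree (σ * (g : ℤ))
      rw [← Int.squarefree_natAbs, Int.natAbs_mul, Int.natAbs_natCast]
      rcases hσ with rfl | rfl | rfl | rfl
      · simpa using hg
      · simpa using hg
      · show Squarefree (2 * g)
        rw [Nat.squarefree_mul ((Nat.coprime_two_left (n := g)).2 (Nat.odd_iff.2 o1))]
        exact ⟨Nat.prime_two.prime.irreducible.squarefree, hg⟩
      · show Squarefree (2 * g)
        rw [Nat.squarefree_mul ((Nat.coprime_two_left (n := g)).2 (Nat.odd_iff.2 o1))]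
        exact ⟨Nat.prime_two.prime.irreducible.squarefree, hg⟩
    · have := Nat.pos_of_mem_divisors h1
      show (0 : ℤ) < (t : ℤ)
      exact_mod_cast this
    · show (t : ℤ) % 8 = 1
      omega
    · intro q hq hqd
      exact (Int.natCast_dvd_natCast.1 hqd).trans (Nat.dvd_of_mem_divisors h1)
    · intro q hq hqd
      have hqd' : (q : ℤ) ∣ σ * (g : ℤ) := hqd
      rcases (Nat.prime_iff_prime_int.1 hq).dvd_or_dvd hqd' with h | h
      · have h5 : (q : ℤ) ∣ 2 := by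
          rcases hσ with rfl | rfl | rfl | rfl
          · exact h.trans (by norm_num)
          · exact h.trans (by norm_num)
          · exact h
          · exact h.trans (by norm_num)
        have h6 : q ∣ 2 := by exact_mod_cast h5
        exact h6.mul_right _
      · exact ((Int.natCast_dvd_natCast.1 h).trans (Nat.dvd_of_mem_divisors h3)).mul_left _
  have h1 := Set.ncard_le_ncard hsub hfin
  rw [Set.ncard_coe_finset, card_image_of_injOn hinj, card_product, card_product] at h1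
  have h2 := card_F1 hM hMo
  have h3 := card_div hM
  have h4 : S4.card = 4 := by rw [hS4]; decide
  rw [h4, h3] at h1
  rw [h3] at h2
  calc 4 ^ M.primeFactors.card = 2 ^ M.primeFactors.card * 2 ^ M.primeFactors.card := by
        rw [← mul_pow]
        norm_num
    _ ≤ (4 * F1.card) * 2 ^ M.primeFactors.card := Nat.mul_le_mul_right _ h2
    _ = F1.card * (4 * 2 ^ M.primeFactors.card) := by ring
    _ ≤ _ := h1

lemma sum_hsb (N : Finset ℕ) (f : ℕ → Bool) : ∃ c : Bool, ∏ q ∈ N, sg (f q) = sg c ∧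
    ∑ q ∈ N, b2z (f q) = b2z c := by
  classical
  induction N using Finset.induction_on with
  | empty => exact ⟨false, rfl, rfl⟩
  | insert a s ha ih =>
    obtain ⟨c, h1, h2⟩ := ih
    refine ⟨xor (f a) c, ?_, ?_⟩
    · rw [prod_insert ha, h1, sg_xor]
    · rw [sum_insert ha, h2, b2z_xor]

lemma sum_zero {N : Finset ℕ} {f : ℕ → Bool} (h : ∏ q ∈ N, sg (f q) = 1) :
    ∑ q ∈ N, b2z (f q) = 0 := by
  obtain ⟨c, h1, h2⟩ := sum_hsb N f
  rw [h1] at h
  rw [h2, sg_one h]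
  rfl

/-- the quadratic form vanishes on the global classes -/
lemma QQ_AM {M : ℕ} (hMo : Odd M) {x0 y0 : ℤ} (hx0 : Squarefree x0) (hxp : 0 < x0)
    (hx8 : x0 % 8 = 1) (hy0 : Squarefree y0) (hxM : ∀ q : ℕ, q.Prime → (q : ℤ) ∣ x0 → q ∣ M)
    (hyM : ∀ q : ℕ, q.Prime → (q : ℤ) ∣ y0 → q ∣ 2 * M) (f : M.primeFactors → XX)
    (hf : f ∈ AM M) :
    QQ M.primeFactors (fun p => b2z (sg0 p (-1))) (fun p => b2z (sgn p y0))
      (fun p => b2z (dv p y0)) (fun p => b2z (dv p x0)) (fun p => b2z (sgn p x0)) f = 0 := by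
  obtain ⟨d, ⟨h1, h2, h3, h4, h5, h6⟩, rfl⟩ := hf
  have hMp : ∀ q ∈ M.primeFactors, q.Prime ∧ q ≠ 2 := by
    intro q hq
    refine ⟨Nat.prime_of_mem_primeFactors hq, ?_⟩
    rintro rfl
    exact (Nat.not_even_iff_odd.2 hMo) (even_iff_two_dvd.2 (Nat.dvd_of_mem_primeFactors hq))
  have hin : ∀ q : ℕ, q.Prime → q ≠ 2 → q ∣ 2 * M → q ∈ M.primeFactors := by
    intro q hq hq2 h
    refine Nat.mem_primeFactors.2 ⟨hq, ?_, hMo.pos.ne'⟩
    rcases (hq.dvd_mul).1 h with h | h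
    · exact absurd ((Nat.prime_dvd_prime_iff_eq hq Nat.prime_two).1 h) hq2
    · exact h
  have P1 := sum_zero (prodf h1 h3 h4 h2 M.primeFactors hMp (fun q hq hq2 h =>
    hin q hq hq2 (h.elim (fun h => (h5 q hq h).mul_left _) (h6 q hq))))
  have P2 := sum_zero (prodf h1 h3 h4 hy0 M.primeFactors hMp (fun q hq hq2 h =>
    hin q hq hq2 (h.elim (fun h => (h5 q hq h).mul_left _) (hyM q hq))))
  have P3 := sum_zero (prodf hx0 hxp hx8 h2 M.primeFactors hMp (fun q hq hq2 h =>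
    hin q hq hq2 (h.elim (fun h => (hxM q hq h).mul_left _) (h6 q hq))))
  unfold QQ
  have hpt : ∀ p : M.primeFactors, ql (b2z (sg0 p (-1))) (b2z (sgn p y0)) (b2z (dv p y0))
      (b2z (dv p x0)) (b2z (sgn p x0)) (Ph M.primeFactors d p) =
      b2z (hsb p d.1 d.2) + (b2z (hsb p d.1 y0) + b2z (hsb p x0 d.2)) := by
    intro p
    show ql (b2z (sg0 p (-1))) (b2z (sgn p y0)) (b2z (dv p y0))
      (b2z (dv p x0)) (b2z (sgn p x0)) (toX _ _ _ _) = _
    rw [ql_toX, hsb_eq, hsb_eq, hsb_eq]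
    unfold qb
    rw [b2z_xor, b2z_xor]
  rw [sum_congr rfl (fun p _ => hpt p)]
  rw [Finset.sum_coe_sort M.primeFactors (fun p => b2z (hsb p d.1 d.2) +
    (b2z (hsb p d.1 y0) + b2z (hsb p x0 d.2))), sum_add_distrib, sum_add_distrib, P1, P2, P3]
  rfl

/-- the dimension of the group of the classes -/
lemma finrank_AM {M : ℕ} (hM : Squarefree M) (hMo : Odd M) (hS : HS M) {x0 y0 : ℤ}
    (hx0 : Squarefree x0) (hxp : 0 < x0)
    (hx8 : x0 % 8 = 1) (hy0 : Squarefree y0) (hxM : ∀ q : ℕ, q.Prime → (q : ℤ) ∣ x0 → q ∣ M)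
    (hyM : ∀ q : ℕ, q.Prime → (q : ℤ) ∣ y0 → q ∣ 2 * M) :
    Module.finrank (ZMod 2) (AM M) = 2 * M.primeFactors.card := by
  apply le_antisymm
  · apply iso_le M.primeFactors (fun p => b2z (sg0 p (-1)))
    intro x hx y hy
    have h1 := QQ_AM hMo hx0 hxp hx8 hy0 hxM hyM x hx
    have h2 := QQ_AM hMo hx0 hxp hx8 hy0 hxM hyM y hy
    have h3 := QQ_AM hMo hx0 hxp hx8 hy0 hxM hyM (x + y) (Submodule.add_mem _ hx hy)
    rw [QQ_add, h1, h2, zero_add, zero_add] at h3
    exact h3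
  · have h1 := card_VA hM hMo (VA_fin hMo hS)
    rw [← card_AM hMo hS, card_sub] at h1
    have h2 : 4 ^ M.primeFactors.card = 2 ^ (2 * M.primeFactors.card) := by
      rw [pow_mul]
      norm_num
    rw [h2] at h1
    exact (Nat.pow_le_pow_iff_right (by norm_num)).1 h1

end Pool.Agent.Y655.RZ
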