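import Pool.Agent.Y655.RZ.Par3

/-!
# Project RZ (helper667), part PAR: parity
-/

set_option autoImplicit false

namespace Pool.Agent.Y655.RZ

open Finset Pool.Agent.W262.RK Pool.Agent.W307.RT Pool.Agent.W307.RS Pool.Agent.W307.SE
  Pool.Agent.W307.FK Pool.Agent.Y667.RP Pool.Agent.Y667.RZ

open NumberTheorySymbols jacobiSym

lemma LF_iff {s : Fin 3 → ℕ} (hs : Squarefree (∏ j, s j)) {E : Finset ℕ} {p : ℕ} (hp : p.Prime)
    {j : Fin 3} (hj : p ∣ s j) {v w h g : Bool} :
    LF s E p v w h g ↔ LR j (decide (p ∈ E)) v w h g := by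
  constructor
  · intro h
    exact h j hj
  · intro h l hl
    by_cases hlj : l = j
    · rw [hlj]; exact h
    · exfalso
      have h1 : s l * s j ∣ ∏ j, s j := by
        rw [← mul_prod_erase univ s (mem_univ j), mul_comm]
        exact Nat.mul_dvd_mul_left _ (dvd_prod_of_mem s (mem_erase.2 ⟨hlj, mem_univ l⟩))
      have h2 := hs p ((Nat.mul_dvd_mul hl hj).trans h1)
      exact hp.one_lt.ne' (Nat.isUnit_iff.1 h2)

/-- the conditions with a trivial condition at 17 -/
def L00 (s : Fin 3 → ℕ) (E : Finset ℕ) (p : ℕ) (v w h g : Bool) : Prop :=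
  if p = 17 then L0 v w h g else LF s E p v w h g

lemma xcL00 (s : Fin 3 → ℕ) (E : Finset ℕ) (p : ℕ) : XC (L00 s E p) := by
  by_cases h : p = 17
  · have : L00 s E p = L0 := by
      funext v w x g
      unfold L00
      rw [if_pos h]
    rw [this]
    exact xcL0
  · have : L00 s E p = LF s E p := by
      funext v w x g
      unfold L00
      rw [if_neg h]
    rw [this]
    exact xcLF s E p

lemma xcL17 (s : Fin 3 → ℕ) (E : Finset ℕ) (p : ℕ) : XC (L17 s E p) := by
  by_cases h : p = 17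
  · have : L17 s E p = L1 := by
      funext v w x g
      unfold L17 L1
      rw [if_pos h]
    rw [this]
    exact xcL1
  · have : L17 s E p = LF s (tw (∏ j, s j) E) p := by
      funext v w x g
      unfold L17
      rw [if_neg h]
    rw [this]
    exact xcLF s _ p

lemma xc_and {L L' : Bool → Bool → Bool → Bool → Prop} (h : XC L) (h' : XC L') :
    XC (fun v w x g => L v w x g ∧ L' v w x g) :=
  ⟨⟨h.1, h'.1⟩, fun _ _ _ _ _ _ _ _ k k' => ⟨h.2 _ _ _ _ _ _ _ _ k.1 k'.1,
    h'.2 _ _ _ _ _ _ _ _ k.2 k'.2⟩⟩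

lemma inf_WL (N : Finset ℕ) (L L' : ℕ → Bool → Bool → Bool → Bool → Prop) (hL : ∀ p, XC (L p))
    (hL' : ∀ p, XC (L' p)) :
    (WL N L hL ⊓ WL N L' hL' : Submodule (ZMod 2) (N → XX)) =
      WL N (fun p v w x g => L p v w x g ∧ L' p v w x g) (fun p => xc_and (hL p) (hL' p)) := by
  ext x
  constructor
  · rintro ⟨h1, h2⟩ p
    exact ⟨h1 p, h2 p⟩
  · intro h
    exact ⟨fun p => (h p).1, fun p => (h p).2⟩

lemma fin3 : ∀ j : Fin 3, j = 0 ∨ j = 1 ∨ j = 2 := by decide

section loc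

variable {s : Fin 3 → ℕ}

lemma prod3 (s : Fin 3 → ℕ) : ∏ j, s j = s 0 * s 1 * s 2 := Fin.prod_univ_three s

/-- the isotropy at the primes of `∏ s` -/
lemma loc_iso (hs : Squarefree (∏ j, s j)) (hodd : Odd (∏ j, s j))
    (hrel : (s 0 : ℤ) - s 1 = 32 * s 2) (E : Finset ℕ) (p : ℕ) (hp : p ∈ (∏ j, s j).primeFactors)
    (v w h g : Bool) (hL : LF s E p v w h g) :
    qb (sg0 p (-1)) (sgn p (2 * s 0 * s 2)) (dv p (2 * s 0 * s 2)) (dv p (s 0 * s 1))
      (sgn p (s 0 * s 1)) v w h g = false := by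
  have hpp := Nat.prime_of_mem_primeFactors hp
  have hpi := Nat.prime_iff_prime_int.1 hpp
  have hpd := Nat.dvd_of_mem_primeFactors hp
  have hp2 : p ≠ 2 := by
    rintro rfl
    exact (Nat.not_even_iff_odd.2 hodd) (even_iff_two_dvd.2 hpd)
  have hp2i : ¬ (p : ℤ) ∣ 2 := by
    intro h
    have h2 : p ∣ 2 := by exact_mod_cast h
    exact hp2 ((Nat.prime_dvd_prime_iff_eq hpp Nat.prime_two).1 h2)
  have hgcd : ∀ x : ℤ, ¬ (p : ℤ) ∣ x → x.gcd p = 1 := by
    intro x hx
    rw [Int.gcd_comm, ← Int.isCoprime_iff_gcd_eq_one]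
    exact (hpi.coprime_iff_not_dvd).2 hx
  have hsq : ∀ x : ℤ, ¬ (p : ℤ) ∣ x → J(x ^ 2 | p) = 1 := fun x hx => jacobiSym.sq_one' (hgcd x hx)
  have hmod : ∀ x y z : ℤ, x = y + p * z → J(x | p) = J(y | p) := by
    intro x y z hxy
    apply jacobiSym.mod_left'
    rw [hxy, Int.add_mul_emod_self_left]
  have hne : ∀ i j : Fin 3, i ≠ j → p ∣ s i → ¬ p ∣ s j := by
    intro i j hij hi hj
    have h1 : s i * s j ∣ ∏ j, s j := by
      rw [← mul_prod_erase univ s (mem_univ j), mul_comm]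
      exact Nat.mul_dvd_mul_left _ (dvd_prod_of_mem s (mem_erase.2 ⟨hij, mem_univ i⟩))
    have h2 := hs p ((Nat.mul_dvd_mul hi hj).trans h1)
    exact hpp.one_lt.ne' (Nat.isUnit_iff.1 h2)
  have hsqf : ∀ j : Fin 3, Squarefree (s j) := fun j =>
    hs.squarefree_of_dvd (dvd_prod_of_mem s (mem_univ j))
  have hnt : ∀ (j : Fin 3) (t : ℕ), s j = p * t → ¬ (p : ℤ) ∣ (t : ℤ) := by
    intro j t ht hd
    obtain ⟨k, hk⟩ := Int.natCast_dvd_natCast.1 hd
    have h2 := hsqf j p ⟨k, by rw [ht, hk]; ring⟩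
    exact hpp.one_lt.ne' (Nat.isUnit_iff.1 h2)
  have hni : ∀ j : Fin 3, ¬ p ∣ s j → ¬ (p : ℤ) ∣ (s j : ℤ) := fun j h h' =>
    h (Int.natCast_dvd_natCast.1 h')
  have hp0 : (p : ℤ) ≠ 0 := hpi.ne_zero
  obtain ⟨j, -, hj⟩ := (hpp.prime.dvd_finsetProd_iff _).1 hpd
  have hLR := (LF_iff hs hpp hj).1 hL
  have hj3 : j = 0 ∨ j = 1 ∨ j = 2 := fin3 j
  rcases hj3 with rfl | rfl | rfl
  · -- class 0
    have n1 := hni 1 (hne 0 1 (by decide) hj)
    have n2 := hni 2 (hne 0 2 (by decide) hj)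
    obtain ⟨t, ht⟩ := hj
    have nt := hnt 0 t ht
    have hx : ((s 0 : ℤ) * s 1) = p * (t * s 1) := by rw [ht]; push_cast; ring
    have hy : (2 * (s 0 : ℤ) * s 2) = p * (2 * t * s 2) := by rw [ht]; push_cast; ring
    have dx : (p : ℤ) ∣ ((s 0 : ℤ) * s 1) := ⟨_, hx⟩
    have dy : (p : ℤ) ∣ (2 * (s 0 : ℤ) * s 2) := ⟨_, hy⟩
    have nx : ¬ (p : ℤ) ∣ ((t : ℤ) * s 1) := fun h => (hpi.dvd_or_dvd h).elim nt n1
    have ny : ¬ (p : ℤ) ∣ (2 * (t : ℤ) * s 2) := fun h =>
      (hpi.dvd_or_dvd h).elim (fun h => (hpi.dvd_or_dvd h).elim hp2i nt) n2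
    apply qb0 hLR
    · unfold dv; rw [decide_eq_true_iff]; exact dy
    · unfold dv; rw [decide_eq_true_iff]; exact dx
    · apply sg_one
      rw [sgn_dvd dx, sgn_dvd dy, hx, hy, Int.mul_ediv_cancel_left _ hp0,
        Int.mul_ediv_cancel_left _ hp0, sg_xor, sg_xor, sg_sg0 hpp nx, sg_sg0 hpp ny,
        sg_sg0 hpp (by rw [dvd_neg]; exact hpi.not_dvd_one), ← jacobiSym.mul_left,
        ← jacobiSym.mul_left]
      rw [hmod _ ((8 * t * s 2) ^ 2) (-(2 * t ^ 3 * s 2)) ?_]
      · apply hsq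
        intro h
        rcases hpi.dvd_or_dvd h with h | h
        · rcases hpi.dvd_or_dvd h with h | h
          · have h8 : (p : ℤ) ∣ 2 ^ 3 := by norm_num; exact h
            exact hp2i (hpi.dvd_of_dvd_pow h8)
          · exact nt h
        · exact n2 h
      · have e1 : (s 1 : ℤ) = p * t - 32 * s 2 := by
          rw [ht] at hrel
          push_cast at hrel
          linarith
        rw [e1]
        ring
  · -- class 1
    have n0 := hni 0 (hne 1 0 (by decide) hj)
    have n2 := hni 2 (hne 1 2 (by decide) hj)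
    have dx : (p : ℤ) ∣ ((s 0 : ℤ) * s 1) := (Int.natCast_dvd_natCast.2 hj).mul_left _
    have ny : ¬ (p : ℤ) ∣ (2 * (s 0 : ℤ) * s 2) := fun h =>
      (hpi.dvd_or_dvd h).elim (fun h => (hpi.dvd_or_dvd h).elim hp2i n0) n2
    obtain ⟨t, ht⟩ := hj
    apply qb1 hLR
    · unfold dv; rw [decide_eq_false_iff_not]; exact ny
    · unfold dv; rw [decide_eq_true_iff]; exact dx
    · rw [sgn_ndvd hpp ny]
      apply sg_one
      rw [sg_sg0 hpp ny, hmod _ ((8 * s 2) ^ 2) (2 * t * s 2) ?_]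
      · apply hsq
        intro h
        rcases hpi.dvd_or_dvd h with h | h
        · have h8 : (p : ℤ) ∣ 2 ^ 3 := by norm_num; exact h
          exact hp2i (hpi.dvd_of_dvd_pow h8)
        · exact n2 h
      · have e1 : (s 0 : ℤ) = 32 * s 2 + p * t := by
          rw [ht] at hrel
          push_cast at hrel
          linarith
        rw [e1]
        ring
  · -- class 2
    have n0 := hni 0 (hne 2 0 (by decide) hj)
    have n1 := hni 1 (hne 2 1 (by decide) hj)
    have nx : ¬ (p : ℤ) ∣ ((s 0 : ℤ) * s 1) := fun h => (hpi.dvd_or_dvd h).elim n0 n1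
    have dy : (p : ℤ) ∣ (2 * (s 0 : ℤ) * s 2) := (Int.natCast_dvd_natCast.2 hj).mul_left _
    obtain ⟨t, ht⟩ := hj
    apply qb2 hLR
    · unfold dv; rw [decide_eq_true_iff]; exact dy
    · unfold dv; rw [decide_eq_false_iff_not]; exact nx
    · rw [sgn_ndvd hpp nx]
      apply sg_one
      rw [sg_sg0 hpp nx, hmod _ ((s 0 : ℤ) ^ 2) (-(32 * t * s 0)) ?_]
      · exact hsq _ n0
      · have e1 : (s 1 : ℤ) = s 0 - 32 * (p * t) := by
          have : (s 2 : ℤ) = p * t := by rw [ht]; push_cast; ring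
          rw [← this]
          linarith
        rw [e1]
        ring

lemma p17 : Nat.Prime 17 := by norm_num

/-- the data at 17 -/
lemma at17 (hrel : (s 0 : ℤ) - s 1 = 32 * s 2) (h0 : s 0 % 17 = 1)
    (h1 : s 1 % 17 = 15) :
    sg0 17 (-1) = false ∧ sgn 17 (2 * s 0 * s 2) = true ∧ dv 17 (2 * s 0 * s 2) = false ∧
      dv 17 (s 0 * s 1) = false ∧ sgn 17 (s 0 * s 1) = false := by
  have h2 : (s 2 : ℤ) % 17 = 7 := by omega
  have h0i : (s 0 : ℤ) % 17 = 1 := by omega
  have h1i : (s 1 : ℤ) % 17 = 15 := by omega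
  have ex : ((s 0 : ℤ) * s 1) % 17 = 15 := by rw [Int.mul_emod, h0i, h1i]; norm_num
  have ey : (2 * (s 0 : ℤ) * s 2) % 17 = 14 := by
    rw [Int.mul_emod, Int.mul_emod 2, h0i, h2]; norm_num
  have nx : ¬ ((17 : ℕ) : ℤ) ∣ ((s 0 : ℤ) * s 1) := by
    intro h
    have := Int.emod_eq_zero_of_dvd h
    push_cast at this
    omega
  have ny : ¬ ((17 : ℕ) : ℤ) ∣ (2 * (s 0 : ℤ) * s 2) := by
    intro h
    have := Int.emod_eq_zero_of_dvd h
    push_cast at this
    omega
  refine ⟨?_, ?_, ?_, ?_, ?_⟩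
  · unfold sg0
    rw [decide_eq_false_iff_not]
    norm_num
  · rw [sgn_ndvd p17 ny]
    unfold sg0
    rw [decide_eq_true_iff, jacobiSym.mod_left' (b := 17) (a₂ := 14) (by push_cast; omega)]
    norm_num
  · unfold dv; rw [decide_eq_false_iff_not]; exact ny
  · unfold dv; rw [decide_eq_false_iff_not]; exact nx
  · rw [sgn_ndvd p17 nx]
    unfold sg0
    rw [decide_eq_false_iff_not, jacobiSym.mod_left' (b := 17) (a₂ := 15) (by push_cast; omega)]
    norm_num

end loc

lemma pf17 {m : ℕ} (hm : m ≠ 0) : (17 * m).primeFactors = insert 17 m.primeFactors := by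
  rw [Nat.primeFactors_mul (by norm_num) hm, p17.primeFactors]
  rfl

lemma V0_eq {s : Fin 3 → ℕ} (hs : Squarefree (∏ j, s j)) (h17 : ¬ 17 ∣ ∏ j, s j)
    (E : Finset ℕ) : V0 s E = VG (17 * ∏ j, s j) (L00 s E) := by
  ext d
  constructor
  · rintro ⟨h1, h2, h3, h4, h5, h6, h7⟩
    refine ⟨h1, h2, h3, h4, fun q hq h => (h5 q hq h).mul_left _, fun q hq h => ?_, ?_⟩
    · rw [← mul_assoc, mul_comm 2 17, mul_assoc]
      exact (h6 q hq h).mul_left _
    · intro p hp
      rw [pf17 hs.ne_zero, mem_insert] at hp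
      unfold L00
      by_cases h : p = 17
      · rw [if_pos h]
        subst h
        constructor
        · unfold dv
          rw [decide_eq_false_iff_not]
          exact fun hd => h17 (h5 17 p17 hd)
        · unfold dv
          rw [decide_eq_false_iff_not]
          intro hd
          rcases (p17.dvd_mul).1 (h6 17 p17 hd) with h | h
          · exact absurd h (by norm_num)
          · exact h17 h
      · rw [if_neg h]
        exact h7 p (hp.resolve_left h)
  · rintro ⟨h1, h2, h3, h4, h5, h6, h7⟩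
    have hm : 17 ∈ (17 * ∏ j, s j).primeFactors := by
      rw [pf17 hs.ne_zero]; exact mem_insert_self _ _
    have h8 := h7 17 hm
    unfold L00 at h8
    rw [if_pos rfl] at h8
    obtain ⟨h9, h10⟩ := h8
    unfold dv at h9 h10
    rw [decide_eq_false_iff_not] at h9 h10
    refine ⟨h1, h2, h3, h4, ?_, ?_, ?_⟩
    · intro q hq hd
      rcases (hq.dvd_mul).1 (h5 q hq hd) with h | h
      · have : q = 17 := (Nat.prime_dvd_prime_iff_eq hq p17).1 h
        subst this
        exact absurd hd h9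
      · exact h
    · intro q hq hd
      have h11 := h6 q hq hd
      rw [← mul_assoc, mul_comm 2 17, mul_assoc] at h11
      rcases (hq.dvd_mul).1 h11 with h | h
      · have : q = 17 := (Nat.prime_dvd_prime_iff_eq hq p17).1 h
        subst this
        exact absurd hd h10
      · exact h
    · intro p hp
      have hne : p ≠ 17 := by
        rintro rfl
        exact h17 (Nat.dvd_of_mem_primeFactors hp)
      have h12 := h7 p (by rw [pf17 hs.ne_zero]; exact mem_insert_of_mem hp)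
      unfold L00 at h12
      rwa [if_neg hne] at h12

/-- the signs of the twist -/
lemma tw_dec {m : ℕ} {E : Finset ℕ} {p : ℕ} (hp : p ∈ m.primeFactors) :
    (decide (p ∈ E) = decide (p ∈ tw m E)) ↔ ¬ jacobiSym 17 p = -1 := by
  unfold tw
  rw [decide_eq_decide, mem_filter]
  constructor
  · intro h hJ
    by_cases h1 : p ∈ E
    · have := (h.1 h1).2
      exact this ⟨fun _ => hJ, fun _ => h1⟩
    · apply h1
      apply h.2
      exact ⟨hp, fun h2 => h1 (h2.2 hJ)⟩
  · intro hJ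
    constructor
    · intro h1
      exact ⟨hp, fun h2 => hJ (h2.1 h1)⟩
    · rintro ⟨-, h2⟩
      by_contra h1
      exact h2 ⟨fun h3 => absurd h3 h1, fun h3 => absurd h3 hJ⟩

/-- the product of the symbols -/
lemma jac17 {s : Fin 3 → ℕ} (hs : Squarefree (∏ j, s j)) (hodd : Odd (∏ j, s j))
    (hrel : (s 0 : ℤ) - s 1 = 32 * s 2) (h0 : s 0 % 17 = 1) (h1 : s 1 % 17 = 15) :
    ∏ p ∈ (∏ j, s j).primeFactors, J(17 | p) = -1 := by
  rw [jac_sqf hs]
  have h3 : J(((17 : ℕ) : ℤ) | ∏ j, s j) = J(((∏ j, s j : ℕ) : ℤ) | 17) :=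
    jacobiSym.quadratic_reciprocity_one_mod_four (by norm_num) hodd
  have h4 : ((17 : ℕ) : ℤ) = 17 := by norm_num
  rw [h4] at h3
  rw [h3]
  have h2 : (s 2) % 17 = 7 := by omega
  have h5 : (∏ j, s j) % 17 = 3 := by
    rw [prod3, Nat.mul_mod, Nat.mul_mod (s 0), h0, h1, h2]
  rw [jacobiSym.mod_left' (b := 17) (a₂ := 3) (by
    show ((∏ j, s j : ℕ) : ℤ) % 17 = 3 % 17
    omega)]
  norm_num

lemma exists_cls {s : Fin 3 → ℕ} (hs : Squarefree (∏ j, s j)) {p : ℕ}
    (hp : p ∈ (∏ j, s j).primeFactors) : ∃ j : Fin 3, ∀ E : Finset ℕ,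
      LF s E p = LR j (decide (p ∈ E)) := by
  have hpp := Nat.prime_of_mem_primeFactors hp
  obtain ⟨j, -, hj⟩ := (hpp.prime.dvd_finsetProd_iff _).1 (Nat.dvd_of_mem_primeFactors hp)
  refine ⟨j, fun E => ?_⟩
  funext v w x g
  exact propext (LF_iff hs hpp hj)

lemma L00_17 (s : Fin 3 → ℕ) (E : Finset ℕ) : L00 s E 17 = L0 := by
  funext v w x g
  unfold L00
  rw [if_pos rfl]

lemma L17_17 (s : Fin 3 → ℕ) (E : Finset ℕ) : L17 s E 17 = L1 := by
  funext v w x g
  unfold L17 L1
  rw [if_pos rfl]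

lemma L00_ne (s : Fin 3 → ℕ) (E : Finset ℕ) {p : ℕ} (hp : p ≠ 17) : L00 s E p = LF s E p := by
  funext v w x g
  unfold L00
  rw [if_neg hp]

lemma L17_ne (s : Fin 3 → ℕ) (E : Finset ℕ) {p : ℕ} (hp : p ≠ 17) :
    L17 s E p = LF s (tw (∏ j, s j) E) p := by
  funext v w x g
  unfold L17
  rw [if_neg hp]

theorem PAR (hLAG : St_LAG) : St_PAR := by
  classical
  intro s hs hodd h17 hrel h0 h1 h0' h1' hσ
  obtain ⟨m, hm⟩ : ∃ m, m = ∏ j, s j := ⟨_, rfl⟩
  obtain ⟨E, hE⟩ : ∃ E, E = sgF (s 0) (s 1) (∏ j, s j) := ⟨_, rfl⟩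
  rw [← hE]
  clear hE
  have hm0 : m ≠ 0 := by rw [hm]; exact hs.ne_zero
  have h17m : ¬ 17 ∣ m := by rw [hm]; exact h17
  have hsm : Squarefree m := by rw [hm]; exact hs
  have hom : Odd m := by rw [hm]; exact hodd
  obtain ⟨M, hM⟩ : ∃ M, M = 17 * m := ⟨_, rfl⟩
  have hMs : Squarefree M := by
    rw [hM, Nat.squarefree_mul ((p17.coprime_iff_not_dvd).2 h17m)]
    exact ⟨p17.prime.irreducible.squarefree, hsm⟩
  have hMo : Odd M := by
    rw [hM]
    exact Odd.mul (by decide) hom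
  have hS : HS M := by
    intro σ h
    obtain ⟨p, hp, hd, hJ⟩ := hσ σ h
    exact ⟨p, hp, by rw [hM, hm]; exact hd.mul_left _, hJ⟩
  -- the linear data
  have hx0s : Squarefree ((s 0 : ℤ) * s 1) := by
    have : Squarefree (s 0 * s 1) := hs.squarefree_of_dvd ⟨s 2, by rw [prod3]⟩
    have h2 := Int.squarefree_natCast.2 this
    push_cast at h2
    exact h2
  have hy0s : Squarefree (2 * (s 0 : ℤ) * s 2) := by
    have k1 : Squarefree (s 0 * s 2) := hs.squarefree_of_dvd ⟨s 1, by rw [prod3]; ring⟩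
    have k2 : Odd (s 0 * s 2) := Odd.of_dvd_nat hodd ⟨s 1, by rw [prod3]; ring⟩
    have k3 : Squarefree (2 * (s 0 * s 2)) := by
      rw [Nat.squarefree_mul ((Nat.coprime_two_left).2 k2)]
      exact ⟨Nat.prime_two.prime.irreducible.squarefree, k1⟩
    have k4 := Int.squarefree_natCast.2 k3
    push_cast at k4
    rwa [← mul_assoc] at k4
  have hx0p : 0 < ((s 0 : ℤ) * s 1) := by
    have k0 : (0 : ℤ) < s 0 := by omega
    have k1 : (0 : ℤ) < s 1 := by omega
    exact mul_pos k0 k1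
  have hx08 : ((s 0 : ℤ) * s 1) % 8 = 1 := by
    have k0 : (s 0 : ℤ) % 8 = 1 := by omega
    have k1 : (s 1 : ℤ) % 8 = 1 := by omega
    rw [Int.mul_emod, k0, k1]
    norm_num
  have hxM : ∀ q : ℕ, q.Prime → (q : ℤ) ∣ ((s 0 : ℤ) * s 1) → q ∣ M := by
    intro q hq h
    have h' : q ∣ s 0 * s 1 := by exact_mod_cast h
    rw [hM, hm, prod3]
    exact (h'.mul_right _).mul_left _
  have hyM : ∀ q : ℕ, q.Prime → (q : ℤ) ∣ (2 * (s 0 : ℤ) * s 2) → q ∣ 2 * M := by
    intro q hq h
    have h' : q ∣ 2 * s 0 * s 2 := by exact_mod_cast h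
    rw [hM, hm, prod3]
    exact h'.trans ⟨17 * s 1, by ring⟩
  have hNc : M.primeFactors = insert 17 m.primeFactors := by rw [hM, pf17 hm0]
  have hQA := QQ_AM hMo hx0s hx0p hx08 hy0s hxM hyM
  have hfA := finrank_AM hMs hMo hS hx0s hx0p hx08 hy0s hxM hyM
  obtain ⟨t1, t2, t3, t4, t5⟩ := at17 hrel h0' h1'
  have hQW := QQ_WL (N := M.primeFactors) (e := fun p => sg0 p (-1))
    (a := fun p => sgn p (2 * s 0 * s 2)) (b := fun p => dv p (2 * s 0 * s 2))
    (c := fun p => dv p (s 0 * s 1)) (d := fun p => sgn p (s 0 * s 1)) (L := L00 s E)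
    (hL := xcL00 s E) (by
      intro p hp v w h g hL
      rw [hNc, mem_insert] at hp
      by_cases hp17 : p = 17
      · subst hp17
        rw [L00_17] at hL
        exact qbL0 hL t3 t4
      · rw [L00_ne s E hp17] at hL
        exact loc_iso hs hodd hrel E p (by rw [← hm]; exact hp.resolve_left hp17) v w h g hL)
  have hQW' := QQ_WL (N := M.primeFactors) (e := fun p => sg0 p (-1))
    (a := fun p => sgn p (2 * s 0 * s 2)) (b := fun p => dv p (2 * s 0 * s 2))
    (c := fun p => dv p (s 0 * s 1)) (d := fun p => sgn p (s 0 * s 1)) (L := L17 s E)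
    (hL := xcL17 s E) (by
      intro p hp v w h g hL
      rw [hNc, mem_insert] at hp
      by_cases hp17 : p = 17
      · subst hp17
        rw [L17_17] at hL
        exact qbL1 hL t3 t4 t2 t5 t1
      · rw [L17_ne s E hp17] at hL
        exact loc_iso hs hodd hrel _ p (by rw [← hm]; exact hp.resolve_left hp17) v w h g hL)
  have hfW : Module.finrank (ZMod 2) (WL M.primeFactors (L00 s E) (xcL00 s E)) =
      2 * M.primeFactors.card := by
    apply finrank_of_card
    rw [card_WL, prod_congr rfl (g := fun _ => 4), prod_const, pow_mul]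
    · norm_num
    intro p hp
    rw [hNc, mem_insert] at hp
    by_cases hp17 : p = 17
    · subst hp17
      rw [L00_17]
      exact card_L0
    · obtain ⟨j, hj⟩ := exists_cls hs (p := p) (by rw [← hm]; exact hp.resolve_left hp17)
      rw [L00_ne s E hp17, hj]
      exact card_LR j _
  have hfW' : Module.finrank (ZMod 2) (WL M.primeFactors (L17 s E) (xcL17 s E)) =
      2 * M.primeFactors.card := by
    apply finrank_of_card
    rw [card_WL, prod_congr rfl (g := fun _ => 4), prod_const, pow_mul]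
    · norm_num
    intro p hp
    rw [hNc, mem_insert] at hp
    by_cases hp17 : p = 17
    · subst hp17
      rw [L17_17]
      exact card_L1
    · obtain ⟨j, hj⟩ := exists_cls hs (p := p) (by rw [← hm]; exact hp.resolve_left hp17)
      rw [L17_ne s E hp17, hj]
      exact card_LR j _
  -- the intersection of the two local conditions
  obtain ⟨k, hk⟩ : ∃ k : ℕ → ℕ, k = fun p => if p = 17 then 0 else
    if jacobiSym 17 p = -1 then 1 else 2 := ⟨_, rfl⟩
  have hfI : Module.finrank (ZMod 2) (WL M.primeFactors (L00 s E) (xcL00 s E) ⊓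
      WL M.primeFactors (L17 s E) (xcL17 s E) :
        Submodule (ZMod 2) (M.primeFactors → XX)) = ∑ p ∈ M.primeFactors, k p := by
    apply finrank_of_card
    rw [inf_WL, card_WL, ← prod_pow_eq_pow_sum]
    apply prod_congr rfl
    intro p hp
    rw [hNc, mem_insert] at hp
    rw [hk]
    by_cases hp17 : p = 17
    · subst hp17
      simp only [if_true, pow_zero]
      rw [L00_17, L17_17]
      exact card_L01
    · have hp' := hp.resolve_left hp17
      obtain ⟨j, hj⟩ := exists_cls hs (p := p) (by rw [← hm]; exact hp')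
      simp only [if_neg hp17]
      rw [L00_ne s E hp17, L17_ne s E hp17, hj, hj]
      have h2 := card_LR2 j (decide (p ∈ E)) (decide (p ∈ tw (∏ j, s j) E))
      have h3 := tw_dec (E := E) hp'
      rw [hm] at h3
      refine (show _ = _ from h2).trans ?_
      by_cases hJ : jacobiSym 17 p = -1
      · rw [if_pos hJ, if_neg (fun h => (h3.1 h) hJ)]
      · rw [if_neg hJ, if_pos (h3.2 hJ)]
  have hoddI : Odd (∑ p ∈ M.primeFactors, k p) := by
    have h2 : (-1 : ℤ) ^ (∑ p ∈ M.primeFactors, k p) = -1 := by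
      rw [← prod_pow_eq_pow_sum, hNc, prod_insert (fun h => h17m (Nat.dvd_of_mem_primeFactors h))]
      have h3 : k 17 = 0 := by rw [hk]; simp
      rw [h3, pow_zero, one_mul]
      have h5 := jac17 hs hodd hrel h0' h1'
      rw [← hm] at h5
      refine Eq.trans (prod_congr rfl ?_) h5
      intro p hp
      have hp17 : p ≠ 17 := by
        rintro rfl
        exact h17m (Nat.dvd_of_mem_primeFactors hp)
      rw [hk]
      simp only [if_neg hp17]
      by_cases hJ : jacobiSym 17 p = -1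
      · rw [if_pos hJ, hJ]; norm_num
      · rw [if_neg hJ]
        have hg : (17 : ℤ).gcd p = 1 := by
          have : Nat.Coprime 17 p := (Nat.coprime_primes p17 (Nat.prime_of_mem_primeFactors hp)).2
            (Ne.symm hp17)
          exact_mod_cast this
        rcases jacobiSym.eq_one_or_neg_one hg with h | h
        · rw [h]; norm_num
        · exact absurd h hJ
    rcases Nat.even_or_odd (∑ p ∈ M.primeFactors, k p) with h | h
    · rw [h.neg_one_pow] at h2
      norm_num at h2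
    · exact h
  have key := hLAG (M.primeFactors → XX) (BB M.primeFactors (fun p => b2z (sg0 p (-1))))
    (QQ M.primeFactors (fun p => b2z (sg0 p (-1))) (fun p => b2z (sgn p (2 * s 0 * s 2)))
      (fun p => b2z (dv p (2 * s 0 * s 2))) (fun p => b2z (dv p (s 0 * s 1)))
      (fun p => b2z (sgn p (s 0 * s 1)))) (2 * M.primeFactors.card) (AM M)
    (WL M.primeFactors (L00 s E) (xcL00 s E)) (WL M.primeFactors (L17 s E) (xcL17 s E))
    (by rw [finrank_V]; ring) (BB_nondeg _ _) (QQ_add _ _ _ _ _ _) hQA hQW hQW' hfA hfW hfW'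
  refine ⟨Module.finrank (ZMod 2) (AM M ⊓ WL M.primeFactors (L00 s E) (xcL00 s E) :
      Submodule (ZMod 2) (M.primeFactors → XX)),
    Module.finrank (ZMod 2) (AM M ⊓ WL M.primeFactors (L17 s E) (xcL17 s E) :
      Submodule (ZMod 2) (M.primeFactors → XX)), ?_, ?_, ?_⟩
  · rw [V0_eq hs h17, ← hm, ← hM, ← card_inf hMo hS (L00 s E) (xcL00 s E), card_sub]
  · show (VG (17 * ∏ j, s j) (L17 s E)).ncard = _
    rw [← hm, ← hM, ← card_inf hMo hS (L17 s E) (xcL17 s E), card_sub]
  · rw [hfI] at key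
    have h2 : Even (2 * M.primeFactors.card) := even_two_mul _
    rw [Nat.even_add, Nat.even_add] at key
    rw [← Nat.not_even_iff_odd] at hoddI ⊢
    tauto

end Pool.Agent.Y655.RZ
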