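import Mathlib
import Pool.Agent.Y667.RZ.Stm

/-!
# Project RZ (helper667), part PAR: the quadratic space
-/

set_option autoImplicit false

namespace Pool.Agent.Y655.RZ

open Finset Pool.Agent.W262.RK Pool.Agent.W307.RT Pool.Agent.W307.RS Pool.Agent.W307.SE
  Pool.Agent.W307.FK Pool.Agent.Y667.RP Pool.Agent.Y667.RZ

/-- the local space, coordinates `v, w, h, g` -/
abbrev XX : Type := ZMod 2 × ZMod 2 × ZMod 2 × ZMod 2

def b2z (b : Bool) : ZMod 2 := if b then 1 else 0

def z2b (x : ZMod 2) : Bool := decide (x = 1)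

lemma z2b_b2z : ∀ b : Bool, z2b (b2z b) = b := by decide

lemma b2z_z2b : ∀ x : ZMod 2, b2z (z2b x) = x := by decide

lemma z2b_add : ∀ x y : ZMod 2, z2b (x + y) = xor (z2b x) (z2b y) := by decide

lemma b2z_xor : ∀ x y : Bool, b2z (xor x y) = b2z x + b2z y := by decide

lemma b2z_and : ∀ x y : Bool, b2z (x && y) = b2z x * b2z y := by decide

lemma b2z_inj : ∀ x y : Bool, b2z x = b2z y → x = y := by decide

def toX (v w h g : Bool) : XX := (b2z v, b2z w, b2z h, b2z g)

/-- the local quadratic form -/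
def ql (e a b c d : ZMod 2) (x : XX) : ZMod 2 :=
  (x.1 * x.2.2.2 + x.2.1 * x.2.2.1 + x.1 * x.2.1 * e) +
  (x.1 * a + b * x.2.2.1 + x.1 * b * e) + (c * x.2.2.2 + x.2.1 * d + c * x.2.1 * e)

/-- the local bilinear form -/
def bl (e : ZMod 2) (x y : XX) : ZMod 2 :=
  x.1 * y.2.2.2 + y.1 * x.2.2.2 + (x.2.1 * y.2.2.1 + y.2.1 * x.2.2.1) +
    (x.1 * y.2.1 + y.1 * x.2.1) * e

/-- the local quadratic form in Booleans -/
def qb (e a b c d v w h g : Bool) : Bool :=
  xor (hb e v h w g) (xor (hb e v h b a) (hb e c d w g))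

lemma ql_toX (e a b c d v w h g : Bool) :
    ql (b2z e) (b2z a) (b2z b) (b2z c) (b2z d) (toX v w h g) = b2z (qb e a b c d v w h g) := by
  unfold ql toX qb hb
  simp only [b2z_xor, b2z_and]
  ring

lemma ql_add (e a b c d : ZMod 2) (x y : XX) :
    ql e a b c d (x + y) = ql e a b c d x + ql e a b c d y + bl e x y := by
  unfold ql bl
  simp only [Prod.fst_add, Prod.snd_add]
  ring

lemma ql_zero (e a b c d : ZMod 2) : ql e a b c d 0 = 0 := by
  unfold ql
  simp

lemma bl_add_left (e : ZMod 2) (x x' y : XX) : bl e (x + x') y = bl e x y + bl e x' y := by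
  unfold bl
  simp only [Prod.fst_add, Prod.snd_add]
  ring

lemma bl_comm (e : ZMod 2) (x y : XX) : bl e x y = bl e y x := by
  unfold bl
  ring

lemma bl_smul_left (e t : ZMod 2) (x y : XX) : bl e (t • x) y = t * bl e x y := by
  unfold bl
  simp only [Prod.smul_fst, Prod.smul_snd, smul_eq_mul]
  ring

lemma bl_zero_right (e : ZMod 2) (x : XX) : bl e x 0 = 0 := by
  unfold bl
  simp

lemma bl_nondeg : ∀ (e : ZMod 2) (x : XX), (∀ y, bl e x y = 0) → x = 0 := by
  intro e x h
  have h1 := h (1, 0, 0, 0)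
  have h2 := h (0, 1, 0, 0)
  have h3 := h (0, 0, 1, 0)
  have h4 := h (0, 0, 0, 1)
  unfold bl at h1 h2 h3 h4
  simp only [mul_zero, mul_one, zero_mul, one_mul, add_zero, zero_add] at h1 h2 h3 h4
  rw [h3, zero_mul, add_zero] at h1
  rw [h4, zero_mul, add_zero] at h2
  ext
  · exact h4
  · exact h3
  · exact h2
  · exact h1

variable (N : Finset ℕ) (e a b c d : ℕ → ZMod 2)

/-- the global bilinear form -/
noncomputable def BB : (N → XX) →ₗ[ZMod 2] (N → XX) →ₗ[ZMod 2] ZMod 2 :=
  LinearMap.mk₂ (ZMod 2) (fun x y => ∑ p : N, bl (e p) (x p) (y p))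
    (fun x x' y => by
      simp only [Pi.add_apply, bl_add_left, sum_add_distrib])
    (fun t x y => by
      simp only [Pi.smul_apply, bl_smul_left, smul_eq_mul, mul_sum])
    (fun x y y' => by
      simp only [Pi.add_apply, bl_comm _ _ (_ + _), bl_add_left, sum_add_distrib]
      simp only [bl_comm])
    (fun t x y => by
      simp only [Pi.smul_apply, bl_comm _ _ (_ • _), bl_smul_left, smul_eq_mul, mul_sum]
      simp only [bl_comm])

lemma BB_apply (x y : N → XX) : BB N e x y = ∑ p : N, bl (e p) (x p) (y p) := rfl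

/-- the global quadratic form -/
noncomputable def QQ (x : N → XX) : ZMod 2 :=
  ∑ p : N, ql (e p) (a p) (b p) (c p) (d p) (x p)

lemma QQ_add (x y : N → XX) :
    QQ N e a b c d (x + y) = QQ N e a b c d x + QQ N e a b c d y + BB N e x y := by
  unfold QQ
  rw [BB_apply]
  simp only [Pi.add_apply, ql_add, sum_add_distrib]

lemma BB_nondeg (x : N → XX) (h : ∀ y, BB N e x y = 0) : x = 0 := by
  classical
  funext p
  apply bl_nondeg (e p)
  intro y
  have h1 := h (Pi.single p y)
  rw [BB_apply, sum_eq_single p] at h1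
  · rwa [Pi.single_eq_same] at h1
  · intro q _ hq
    rw [Pi.single_eq_of_ne hq, bl_zero_right]
  · intro h
    exact absurd (mem_univ _) h

lemma BB_comm (x y : N → XX) : BB N e x y = BB N e y x := by
  rw [BB_apply, BB_apply]
  exact sum_congr rfl fun p _ => bl_comm _ _ _

lemma finrank_XX : Module.finrank (ZMod 2) XX = 4 := by
  unfold XX
  rw [Module.finrank_prod, Module.finrank_prod, Module.finrank_prod, Module.finrank_self]

lemma finrank_V : Module.finrank (ZMod 2) (N → XX) = 4 * N.card := by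
  rw [Module.finrank_pi_fintype]
  simp only [finrank_XX]
  rw [sum_const, card_univ, Fintype.card_coe, smul_eq_mul, mul_comm]

/-- an isotropic subspace has at most half of the dimension -/
lemma iso_le (A : Submodule (ZMod 2) (N → XX)) (h : ∀ x ∈ A, ∀ y ∈ A, BB N e x y = 0) :
    Module.finrank (ZMod 2) A ≤ 2 * N.card := by
  have h2 : (BB N e : LinearMap.BilinForm (ZMod 2) (N → XX)).Nondegenerate := by
    constructor
    · intro x hx
      exact BB_nondeg N e x hx
    · intro x hx
      apply BB_nondeg N e x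
      intro y
      rw [BB_comm]
      exact hx y
  have h3 := LinearMap.BilinForm.finrank_orthogonal h2 A
  have h4 : A ≤ LinearMap.BilinForm.orthogonal (BB N e) A := by
    intro x hx
    rw [LinearMap.BilinForm.mem_orthogonal_iff]
    intro y hy
    exact h y hy x hx
  have h5 := Submodule.finrank_mono h4
  have h6 := finrank_V N
  have h7 := Submodule.finrank_le A
  omega

end Pool.Agent.Y655.RZ
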