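import Pool.Agent.Y655.RZ.Par1

/-!
# Project RZ (helper667), part PAR: the subspaces of the local conditions
-/

set_option autoImplicit false

namespace Pool.Agent.Y655.RZ

open Finset Pool.Agent.W262.RK Pool.Agent.W307.RT Pool.Agent.W307.RS Pool.Agent.W307.SE
  Pool.Agent.W307.FK Pool.Agent.Y667.RP Pool.Agent.Y667.RZ

/-- the local conditions on the local space -/
def LX (L : Bool → Bool → Bool → Bool → Prop) (x : XX) : Prop :=
  L (z2b x.1) (z2b x.2.1) (z2b x.2.2.1) (z2b x.2.2.2)

lemma LX_toX (L : Bool → Bool → Bool → Bool → Prop) (v w h g : Bool) :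
    LX L (toX v w h g) ↔ L v w h g := by
  unfold LX toX
  simp only [z2b_b2z]

lemma toX_z (x : XX) : toX (z2b x.1) (z2b x.2.1) (z2b x.2.2.1) (z2b x.2.2.2) = x := by
  unfold toX
  simp only [b2z_z2b]

/-- the subspace of the local conditions -/
def SL (L : Bool → Bool → Bool → Bool → Prop) (hL : XC L) : Submodule (ZMod 2) XX where
  carrier := {x | LX L x}
  zero_mem' := hL.1
  add_mem' := by
    intro x y hx hy
    have := hL.2 _ _ _ _ _ _ _ _ hx hy
    simp only [← z2b_add] at this
    exact this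
  smul_mem' := by
    intro t x hx
    have ht : t = 0 ∨ t = 1 := by revert t; decide
    rcases ht with rfl | rfl
    · rw [zero_smul]; exact hL.1
    · rw [one_smul]; exact hx

/-- the subspace of the local conditions for all `p ∈ N` -/
def WL (N : Finset ℕ) (L : ℕ → Bool → Bool → Bool → Bool → Prop) (hL : ∀ p, XC (L p)) :
    Submodule (ZMod 2) (N → XX) where
  carrier := {x | ∀ p : N, x p ∈ SL (L p) (hL p)}
  zero_mem' := fun p => Submodule.zero_mem _
  add_mem' := fun {x y} hx hy p => Submodule.add_mem _ (hx p) (hy p)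
  smul_mem' := fun t x hx p => Submodule.smul_mem _ t (hx p)

lemma mem_WL {N : Finset ℕ} {L : ℕ → Bool → Bool → Bool → Bool → Prop} {hL : ∀ p, XC (L p)}
    {x : N → XX} : x ∈ WL N L hL ↔ ∀ p : N, LX (L p) (x p) := Iff.rfl

lemma card_WL (N : Finset ℕ) (L : ℕ → Bool → Bool → Bool → Bool → Prop) (hL : ∀ p, XC (L p)) :
    Nat.card (WL N L hL) = ∏ p ∈ N, Nat.card {x : XX // LX (L p) x} := by
  have h1 : Nat.card (WL N L hL) = Nat.card (∀ p : N, {x : XX // LX (L p) x}) :=
    Nat.card_congr (Equiv.subtypePiEquivPi (β := fun _ : N => XX)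
      (p := fun {p : N} (x : XX) => LX (L p) x))
  rw [h1, Nat.card_pi, Finset.prod_coe_sort N (fun p => Nat.card {x : XX // LX (L p) x})]

lemma card_sub {N : Finset ℕ} (A : Submodule (ZMod 2) (N → XX)) :
    Nat.card A = 2 ^ Module.finrank (ZMod 2) A := by
  have h1 := Module.natCard_eq_pow_finrank (K := ZMod 2) (V := A)
  rw [Nat.card_zmod] at h1
  exact h1

lemma finrank_of_card {N : Finset ℕ} {A : Submodule (ZMod 2) (N → XX)} {n : ℕ}
    (h : Nat.card A = 2 ^ n) : Module.finrank (ZMod 2) A = n := by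
  rw [card_sub] at h
  exact Nat.pow_right_injective (le_refl 2) h

lemma card_LR (j : Fin 3) (neg : Bool) : Nat.card {x : XX // LX (LR j neg) x} = 4 := by
  have key : ∀ (P : XX → Prop) [DecidablePred P], Fintype.card {x : XX // P x} = 4 →
      Nat.card {x : XX // P x} = 4 := by
    intro P _ h
    rw [Nat.card_eq_fintype_card, h]
  unfold LX LR
  fin_cases j <;> cases neg
  · exact key _ (by decide)
  · exact key _ (by decide)
  · exact key _ (by decide)
  · exact key _ (by decide)
  · exact key _ (by decide)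
  · exact key _ (by decide)

lemma card_LR2 (j : Fin 3) (neg neg' : Bool) :
    Nat.card {x : XX // LX (LR j neg) x ∧ LX (LR j neg') x} =
      2 ^ (if neg = neg' then 2 else 1) := by
  have key : ∀ (n : ℕ) (P : XX → Prop) [DecidablePred P], Fintype.card {x : XX // P x} = n →
      Nat.card {x : XX // P x} = n := by
    intro n P _ h
    rw [Nat.card_eq_fintype_card, h]
  unfold LX LR
  fin_cases j <;> cases neg <;> cases neg'
  all_goals exact key _ _ (by decide)

/-- at `17`, for the curve -/
def L0 (v w _h _g : Bool) : Prop := v = false ∧ w = false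

/-- at `17`, for the twist -/
def L1 (v _w h g : Bool) : Prop := h = false ∧ g = v

lemma xcL0 : XC L0 := by
  refine ⟨⟨rfl, rfl⟩, ?_⟩
  rintro a b c d a' b' c' d' ⟨rfl, rfl⟩ ⟨rfl, rfl⟩
  exact ⟨rfl, rfl⟩

lemma xcL1 : XC L1 := by
  refine ⟨⟨rfl, rfl⟩, ?_⟩
  rintro a b c d a' b' c' d' ⟨rfl, rfl⟩ ⟨rfl, rfl⟩
  exact ⟨rfl, rfl⟩

lemma card_L0 : Nat.card {x : XX // LX L0 x} = 4 := by
  have key : ∀ (P : XX → Prop) [DecidablePred P], Fintype.card {x : XX // P x} = 4 →
      Nat.card {x : XX // P x} = 4 := by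
    intro P _ h
    rw [Nat.card_eq_fintype_card, h]
  unfold LX L0
  exact key _ (by decide)

lemma card_L1 : Nat.card {x : XX // LX L1 x} = 4 := by
  have key : ∀ (P : XX → Prop) [DecidablePred P], Fintype.card {x : XX // P x} = 4 →
      Nat.card {x : XX // P x} = 4 := by
    intro P _ h
    rw [Nat.card_eq_fintype_card, h]
  unfold LX L1
  exact key _ (by decide)

lemma card_L01 : Nat.card {x : XX // LX L0 x ∧ LX L1 x} = 1 := by
  have key : ∀ (P : XX → Prop) [DecidablePred P], Fintype.card {x : XX // P x} = 1 →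
      Nat.card {x : XX // P x} = 1 := by
    intro P _ h
    rw [Nat.card_eq_fintype_card, h]
  unfold LX L0 L1
  exact key _ (by decide)

/-- the isotropy at a prime of the class 0 -/
lemma qb0 {neg e a b c d v w h g : Bool} (h1 : LR 0 neg v w h g) (hb : b = true) (hc : c = true)
    (h2 : xor (xor a d) e = false) : qb e a b c d v w h g = false := by
  unfold LR at h1
  rw [if_pos rfl] at h1
  obtain ⟨rfl, h1⟩ := h1
  subst hb hc
  revert h1 h2
  revert neg e a d v h g
  unfold qb Pool.Agent.Y667.RP.hb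
  decide

lemma qb1 {neg e a b c d v w h g : Bool} (h1 : LR 1 neg v w h g) (hb : b = false)
    (hc : c = true) (h2 : a = false) : qb e a b c d v w h g = false := by
  unfold LR at h1
  rw [if_neg (by decide), if_pos rfl] at h1
  obtain ⟨rfl, h1⟩ := h1
  subst hb hc h2
  revert h1
  revert neg e d v h g
  unfold qb Pool.Agent.Y667.RP.hb
  decide

lemma qb2 {neg e a b c d v w h g : Bool} (h1 : LR 2 neg v w h g) (hb : b = true)
    (hc : c = false) (h2 : d = false) : qb e a b c d v w h g = false := by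
  unfold LR at h1
  rw [if_neg (by decide), if_neg (by decide)] at h1
  obtain ⟨rfl, h1⟩ := h1
  subst hb hc h2
  revert h1
  revert neg e a w h g
  unfold qb Pool.Agent.Y667.RP.hb
  decide

lemma qbL0 {e a b c d v w h g : Bool} (h1 : L0 v w h g) (hb : b = false) (hc : c = false) :
    qb e a b c d v w h g = false := by
  obtain ⟨rfl, rfl⟩ := h1
  subst hb hc
  revert e a d h g
  unfold qb Pool.Agent.Y667.RP.hb
  decide

lemma qbL1 {e a b c d v w h g : Bool} (h1 : L1 v w h g) (hb : b = false) (hc : c = false)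
    (ha : a = true) (hd : d = false) (he : e = false) : qb e a b c d v w h g = false := by
  obtain ⟨rfl, rfl⟩ := h1
  subst hb hc ha hd he
  revert g w
  unfold qb Pool.Agent.Y667.RP.hb
  decide

/-- the quadratic form vanishes on the subspace if it vanishes locally -/
lemma QQ_WL {N : Finset ℕ} {e a b c d : ℕ → Bool} {L : ℕ → Bool → Bool → Bool → Bool → Prop}
    {hL : ∀ p, XC (L p)}
    (h : ∀ p ∈ N, ∀ v w h g, L p v w h g → qb (e p) (a p) (b p) (c p) (d p) v w h g = false)
    (x : N → XX) (hx : x ∈ WL N L hL) :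
    QQ N (fun p => b2z (e p)) (fun p => b2z (a p)) (fun p => b2z (b p)) (fun p => b2z (c p))
      (fun p => b2z (d p)) x = 0 := by
  unfold QQ
  apply sum_eq_zero
  intro p _
  have h1 := hx p
  have h2 := h p p.2 _ _ _ _ h1
  rw [← toX_z (x p), ql_toX, h2]
  rfl

end Pool.Agent.Y655.RZ
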